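import Pool.Agent.H454R3.EDeg
import Pool.Agent.Helper672.Blum.Toolkit

/-!
# Urysohn-quasi-minimal points of a Hausdorff space

The countable power `G` of the Golomb space (the positive integers with the topology generated by
the residue classes `a mod b` with `a`, `b` coprime) is a Hausdorff space. For every represented
Urysohn space `Y` some point of `G` is `Y`-quasi-minimal. In fact every point that is sufficiently
generic, with respect to the cylinders of `ℕ → ℕ`, has this property.

Proof. Let `Φ` be an enumeration operator and let `f` be the partial map from `G` to `Y` induced by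
`Φ`. If the domain of `f` meets every subcylinder of a cylinder `C` then `f` is constant on `C`: the
closures, within `C`, of any two basic open sets that meet `C` have a cylinder in common, while
different points of `Y` have neighbourhoods with disjoint closures. The constant value has a c.e.
neighbourhood filter, because `Φ` enumerates only elements of it from data compatible with `C`.
-/

set_option autoImplicit false

namespace Pool.Agent.Results.MP_4f977f_lc.UrysohnQuasiMinimal

open Pool.Agent.H454R3.EDeg Pool.Agent.Helper446 Pool.Agent.Helper672.Blum TopologicalSpace Topology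

universe u

/-! ### The definitions used in the statement -/

/-- `A` is computably enumerable. -/
def CE (A : Set ℕ) : Prop := REPred fun n => n ∈ A

/-- `A` has `Y`-quasi-minimal e-degree, for the space `Y` with the subbasis `γ`: it is not c.e.,
and every point of `Y` whose coded neighbourhood filter is e-reducible to `A` has a c.e. coded
neighbourhood filter. -/
def QuasiMinimal {Y : Type u} (γ : ℕ → Set Y) (A : Set ℕ) : Prop :=
  ¬ CE A ∧ ∀ y : Y, ERed (Nbase γ y) A → CE (Nbase γ y)

/-! ### The countable power of the Golomb space -/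

/-- The subbasis of the power of the Golomb space (the value of `w` at `i` is `w i + 1`): the set
with the index `⟨i, ⟨a, b⟩⟩` consists of the `w` whose value at `i` is congruent to `a` modulo
`b + 1`, if `a` and `b + 1` are coprime; it is empty otherwise. -/
def sub (q : ℕ) : Set (ℕ → ℕ) :=
  {w | Nat.Coprime (w q.unpair.1 + 1) (q.unpair.2.unpair.2 + 1) ∧
    w q.unpair.1 + 1 ≡ q.unpair.2.unpair.1 [MOD (q.unpair.2.unpair.2 + 1)]}

theorem mem_sub {w : ℕ → ℕ} {i a b : ℕ} : w ∈ sub (Nat.pair i (Nat.pair a b)) ↔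
    Nat.Coprime (w i + 1) (b + 1) ∧ w i + 1 ≡ a [MOD (b + 1)] := by
  simp only [sub, Set.mem_ofPred_eq, Nat.unpair_pair]

/-- the topology of the power -/
abbrev top : TopologicalSpace (ℕ → ℕ) := generateFrom (Set.range sub)

theorem isOpen_sub (q : ℕ) : IsOpen[top] (sub q) := isOpen_generateFrom_of_mem ⟨q, rfl⟩

theorem t2 : @T2Space (ℕ → ℕ) top := by
  let _ : TopologicalSpace (ℕ → ℕ) := top
  refine ⟨fun x y hxy => ?_⟩
  obtain ⟨i, hi⟩ := Function.ne_iff.1 hxy
  obtain ⟨p, hp1, hp2⟩ := Nat.exists_infinite_primes (x i + y i + 2)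
  have hp0 : p - 1 + 1 = p := Nat.succ_pred_eq_of_pos hp2.pos
  have key : ∀ z : ℕ, z + 1 < p → Nat.Coprime (z + 1) p := fun z hz =>
    (Nat.coprime_of_lt_prime (by omega) hz hp2).symm
  refine ⟨sub (Nat.pair i (Nat.pair (x i + 1) (p - 1))),
    sub (Nat.pair i (Nat.pair (y i + 1) (p - 1))), isOpen_sub _, isOpen_sub _, ?_, ?_, ?_⟩
  · rw [mem_sub, hp0]
    exact ⟨key _ (by omega), rfl⟩
  · rw [mem_sub, hp0]
    exact ⟨key _ (by omega), rfl⟩
  · rw [Set.disjoint_left]
    intro w h1 h2
    rw [mem_sub, hp0] at h1 h2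
    have h3 : x i + 1 ≡ y i + 1 [MOD p] := h1.2.symm.trans h2.2
    have h4 := Nat.ModEq.eq_of_lt_of_lt h3 (by omega) (by omega)
    omega

/-- the box around `x`: the first `m` coordinates are prescribed modulo the `b i` -/
def Box (x : ℕ → ℕ) (m : ℕ) (b : ℕ → ℕ) : Set (ℕ → ℕ) :=
  {w | ∀ i < m, w i + 1 ≡ x i + 1 [MOD (b i)]}

/-- the moduli are admissible at `x` -/
def Adm (x b : ℕ → ℕ) : Prop := ∀ i, 1 ≤ b i ∧ Nat.Coprime (x i + 1) (b i)

/-- the boxes are a neighbourhood base -/
theorem exists_box {U : Set (ℕ → ℕ)} (hU : IsOpen[top] U) {x : ℕ → ℕ} (hx : x ∈ U) :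
    ∃ m b, Adm x b ∧ Box x m b ⊆ U := by
  induction hU with
  | basic s hs =>
    obtain ⟨q, rfl⟩ := hs
    refine ⟨q.unpair.1 + 1, fun i => if i = q.unpair.1 then q.unpair.2.unpair.2 + 1 else 1, ?_, ?_⟩
    · intro i
      by_cases h : i = q.unpair.1
      · subst h
        simp only [if_true]
        exact ⟨by omega, hx.1⟩
      · simp [h]
    · intro w hw
      have h1 := hw q.unpair.1 (Nat.lt_succ_self _)
      simp only [if_true] at h1
      refine ⟨?_, h1.trans hx.2⟩
      have h2 := Nat.ModEq.gcd_eq h1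
      have h3 : Nat.gcd (x q.unpair.1 + 1) (q.unpair.2.unpair.2 + 1) = 1 := hx.1
      rw [Nat.coprime_iff_gcd_eq_one, h2, h3]
  | univ => exact ⟨0, fun _ => 1, fun i => ⟨le_rfl, by simp⟩, Set.subset_univ _⟩
  | inter s t _ _ ihs iht =>
    obtain ⟨m, b, h1, h2⟩ := ihs hx.1
    obtain ⟨n, c, h3, h4⟩ := iht hx.2
    refine ⟨max m n, fun i => b i * c i, fun i => ⟨?_, ?_⟩, fun w hw => ⟨h2 ?_, h4 ?_⟩⟩
    · exact Nat.mul_pos (h1 i).1 (h3 i).1
    · exact Nat.Coprime.mul_right (h1 i).2 (h3 i).2
    · intro i hi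
      exact (hw i (lt_max_of_lt_left hi)).of_mul_right _
    · intro i hi
      exact (hw i (lt_max_of_lt_right hi)).of_mul_left _
  | sUnion S _ ih =>
    obtain ⟨s, hs, hxs⟩ := hx
    obtain ⟨m, b, h1, h2⟩ := ih s hs hxs
    exact ⟨m, b, h1, h2.trans (Set.subset_sUnion_of_mem hs)⟩

/-- finite subsets of the neighbourhood filter define open sets -/
theorem isOpen_D {Y : Type u} (γ : ℕ → Set Y) (n : ℕ) :
    IsOpen[generateFrom (Set.range γ)] {y | D n ⊆ Nbase γ y} := by
  let _ : TopologicalSpace Y := generateFrom (Set.range γ)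
  have hfin : (D n).Finite := (Set.finite_Iio n).subset fun i hi => D_bound hi
  have h : {y | D n ⊆ Nbase γ y} = ⋂ i ∈ D n, γ i := by
    ext y
    simp only [Set.mem_ofPred_eq, Set.mem_iInter]
    exact Iff.rfl
  rw [h]
  exact hfin.isOpen_biInter fun i _ => isOpen_generateFrom_of_mem ⟨i, rfl⟩

/-- open sets are given by finite subsets of the neighbourhood filter -/
theorem exists_D {Y : Type u} (γ : ℕ → Set Y) {V : Set Y}
    (hV : IsOpen[generateFrom (Set.range γ)] V) {y : Y} (hy : y ∈ V) :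
    ∃ n, D n ⊆ Nbase γ y ∧ ∀ z, D n ⊆ Nbase γ z → z ∈ V := by
  induction hV with
  | basic s hs =>
    obtain ⟨q, rfl⟩ := hs
    refine ⟨2 ^ q, ?_, fun z hz => ?_⟩
    · intro i hi
      simp only [D, Set.mem_ofPred_eq, Nat.testBit_two_pow, decide_eq_true_eq] at hi
      subst hi
      exact hy
    · exact hz (show q ∈ D (2 ^ q) by simp [D])
  | univ => exact ⟨0, fun i hi => by simp [D] at hi, fun z _ => trivial⟩
  | inter s t _ _ ihs iht =>
    obtain ⟨m, h1, h2⟩ := ihs hy.1
    obtain ⟨n, h3, h4⟩ := iht hy.2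
    have hD : D (m ||| n) = D m ∪ D n := by
      ext i
      simp only [D, Set.mem_union, Set.mem_ofPred_eq, Nat.testBit_or, Bool.or_eq_true]
    refine ⟨m ||| n, ?_, fun z hz => ?_⟩
    · rw [hD]
      exact Set.union_subset h1 h3
    · rw [hD] at hz
      exact ⟨h2 z (Set.subset_union_left.trans hz), h4 z (Set.subset_union_right.trans hz)⟩
  | sUnion S _ ih =>
    obtain ⟨s, hs, hxs⟩ := hy
    obtain ⟨n, h1, h2⟩ := ih s hs hxs
    exact ⟨n, h1, fun z hz => Set.subset_sUnion_of_mem hs (h2 z hz)⟩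

/-- `w` agrees with `x` below `k` -/
def Cyl (x : ℕ → ℕ) (k : ℕ) : Set (ℕ → ℕ) := {w | ∀ i < k, w i = x i}

/-- the domain of the partial map from the power of the Golomb space to `Y` given by the operator -/
def Dom {Y : Type u} (γ : ℕ → Set Y) (Φ : Set (ℕ × ℕ)) : Set (ℕ → ℕ) :=
  {w | ∃ y : Y, Nbase γ y = app Φ (Nbase sub w)}

/-- continuity of the partial map -/
theorem cont {Y : Type u} (γ : ℕ → Set Y) (Φ : Set (ℕ × ℕ)) {V : Set Y}
    (hV : IsOpen[generateFrom (Set.range γ)] V) {w : ℕ → ℕ} {y : Y} (hy : y ∈ V)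
    (hw : Nbase γ y = app Φ (Nbase sub w)) :
    ∃ m b, Adm w b ∧ ∀ v ∈ Box w m b, ∀ z : Y, Nbase γ z = app Φ (Nbase sub v) → z ∈ V := by
  obtain ⟨n, h1, h2⟩ := exists_D γ hV hy
  rw [hw] at h1
  -- finitely many axioms are used
  have h3 : ∃ u, D u ⊆ Nbase sub w ∧ D n ⊆ app Φ (D u) := by
    have hfin : (D n).Finite := (Set.finite_Iio n).subset fun i hi => D_bound hi
    have h4 : ∀ s : Set ℕ, s.Finite → s ⊆ app Φ (Nbase sub w) →
        ∃ u, D u ⊆ Nbase sub w ∧ s ⊆ app Φ (D u) := by
      intro s hs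
      induction s, hs using Set.Finite.induction_on with
      | empty => exact fun _ => ⟨0, fun i hi => by simp [D] at hi, Set.empty_subset _⟩
      | insert _ _ ih =>
        intro h5
        obtain ⟨u, h6, h7⟩ := ih ((Set.subset_insert _ _).trans h5)
        obtain ⟨v, h8, h9⟩ := h5 (Set.mem_insert _ _)
        have hD : D (u ||| v) = D u ∪ D v := by
          ext i
          simp only [D, Set.mem_union, Set.mem_ofPred_eq, Nat.testBit_or, Bool.or_eq_true]
        refine ⟨u ||| v, ?_, ?_⟩
        · rw [hD]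
          exact Set.union_subset h6 h9
        · rw [hD]
          refine Set.insert_subset ⟨v, h8, Set.subset_union_right⟩ ?_
          exact h7.trans (app_mono Set.subset_union_left)
    exact h4 _ hfin h1
  obtain ⟨u, h4, h5⟩ := h3
  obtain ⟨m, b, h6, h7⟩ := exists_box (isOpen_D sub u) (x := w) h4
  refine ⟨m, b, h6, fun v hv z hz => h2 z ?_⟩
  rw [hz]
  exact h5.trans (app_mono (h7 hv))

/-- The partial map is constant on a cylinder if its domain meets every subcylinder. -/
theorem const_on {Y : Type u} (γ : ℕ → Set Y) (hY : @T25Space Y (generateFrom (Set.range γ)))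
    (Φ : Set (ℕ × ℕ)) (x : ℕ → ℕ) (k : ℕ)
    (hd : ∀ z ∈ Cyl x k, ∀ l, (Cyl z l ∩ Dom γ Φ).Nonempty)
    {w w' : ℕ → ℕ} (hw : w ∈ Cyl x k) (hw' : w' ∈ Cyl x k) {y y' : Y}
    (hy : Nbase γ y = app Φ (Nbase sub w)) (hy' : Nbase γ y' = app Φ (Nbase sub w')) : y = y' := by
  let _ : TopologicalSpace Y := generateFrom (Set.range γ)
  by_contra hne
  obtain ⟨V, hyV, hV, V', hyV', hV', hdis⟩ := exists_open_nhds_disjoint_closure hne
  obtain ⟨m, b, hb, h1⟩ := cont γ Φ hV hyV hy
  obtain ⟨m', b', hb', h1'⟩ := cont γ Φ hV' hyV' hy'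
  -- the common cylinder
  let z : ℕ → ℕ := fun i => if i < k then x i else b i * b' i - 1
  have hz : z ∈ Cyl x k := fun i hi => by simp [z, hi]
  have hzb : ∀ i, k ≤ i → z i + 1 = b i * b' i := by
    intro i hi
    have h2 : 1 ≤ b i * b' i := Nat.mul_pos (hb i).1 (hb' i).1
    simp only [z, if_neg (not_lt.2 hi)]
    omega
  obtain ⟨v, hv, t, ht⟩ := hd z hz (max k (max m m'))
  -- a common extension
  have key : ∀ (w₀ : ℕ → ℕ) (m₀ : ℕ) (b₀ : ℕ → ℕ), w₀ ∈ Cyl x k → m₀ ≤ max m m' →
      (∀ i, 1 ≤ b₀ i) → (∀ i, b₀ i ∣ b i * b' i) → ∀ V₀ : Set Y,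
      (∀ u ∈ Box w₀ m₀ b₀, ∀ s : Y, Nbase γ s = app Φ (Nbase sub u) → s ∈ V₀) →
      t ∈ closure V₀ := by
    intro w₀ m₀ b₀ hw₀ hm₀ hb₀ hdvd V₀ hV₀
    rw [mem_closure_iff]
    intro O hO htO
    obtain ⟨n, c, hc, h2⟩ := cont γ Φ hO htO ht
    have h3 : ∀ i, ∃ a : ℕ, (i < k → a = x i) ∧
        (k ≤ i → i < m₀ → a + 1 ≡ w₀ i + 1 [MOD (b₀ i)] ∧ a + 1 ≡ v i + 1 [MOD (c i)]) ∧
        (k ≤ i → m₀ ≤ i → a = v i) := by
      intro i
      rcases lt_or_ge i k with hi | hi
      · exact ⟨x i, fun _ => rfl, fun h => absurd h (not_le.2 hi), fun h => absurd h (not_le.2 hi)⟩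
      · rcases lt_or_ge i m₀ with hi' | hi'
        · have hvi : v i + 1 = b i * b' i := by
            rw [hv i (by
              have : m₀ ≤ max k (max m m') := hm₀.trans (le_max_right _ _)
              omega), hzb i hi]
          have hcop : Nat.Coprime (b₀ i) (c i) := by
            have h4 := (hc i).2
            rw [hvi] at h4
            exact Nat.Coprime.coprime_dvd_left (hdvd i) h4
          obtain ⟨a, ha1, ha2⟩ := Nat.chineseRemainder hcop (w₀ i + 1) (v i + 1)
          refine ⟨a + b₀ i * c i - 1, fun h => absurd h (not_lt.2 hi), fun _ _ => ?_,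
            fun _ h => absurd h (not_le.2 hi')⟩
          have h5 : a + b₀ i * c i - 1 + 1 = a + b₀ i * c i := by
            have : 1 ≤ b₀ i * c i := Nat.mul_pos (hb₀ i) (hc i).1
            omega
          rw [h5]
          constructor
          · refine Nat.ModEq.trans ?_ ha1
            have h6 : b₀ i * c i ≡ 0 [MOD (b₀ i)] := (Nat.modEq_zero_iff_dvd).2 (dvd_mul_right _ _)
            have h7 := Nat.ModEq.add_left a h6
            rwa [Nat.add_zero] at h7
          · refine Nat.ModEq.trans ?_ ha2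
            have h6 : b₀ i * c i ≡ 0 [MOD (c i)] := (Nat.modEq_zero_iff_dvd).2 (dvd_mul_left _ _)
            have h7 := Nat.ModEq.add_left a h6
            rwa [Nat.add_zero] at h7
        · exact ⟨v i, fun h => absurd h (not_lt.2 hi), fun _ h => absurd h (not_lt.2 hi'),
            fun _ _ => rfl⟩
    choose a ha1 ha2 ha3 using h3
    have haC : a ∈ Cyl x k := fun i hi => ha1 i hi
    obtain ⟨u, hu, s, hs⟩ := hd a haC (max k (max m₀ n))
    have hub : u ∈ Box w₀ m₀ b₀ := by
      intro i hi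
      rw [hu i (by omega)]
      rcases lt_or_ge i k with hik | hik
      · rw [ha1 i hik, hw₀ i hik]
      · exact (ha2 i hik hi).1
    have huc : u ∈ Box v n c := by
      intro i hi
      rw [hu i (by omega)]
      rcases lt_or_ge i k with hik | hik
      · rw [ha1 i hik, hv i (by omega), hz i hik]
      · rcases lt_or_ge i m₀ with hi' | hi'
        · exact (ha2 i hik hi').2
        · rw [ha3 i hik hi']
    exact ⟨s, h2 u huc s hs, hV₀ u hub s hs⟩
  have h4 : t ∈ closure V := key w m b hw (le_max_left _ _) (fun i => (hb i).1)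
    (fun i => dvd_mul_right _ _) V h1
  have h5 : t ∈ closure V' := key w' m' b' hw' (le_max_right _ _) (fun i => (hb' i).1)
    (fun i => dvd_mul_left _ _) V' h1'
  exact Set.disjoint_left.1 hdis h4 h5

/-- the point with finitely many given values -/
def pt (l : List ℕ) : ℕ → ℕ := fun i => l.getD i 0

/-- it can be enumerated which finite sets are contained in a neighbourhood filter of a point of a
given cylinder -/
theorem re_ext (x : ℕ → ℕ) (k : ℕ) : REPred fun u : ℕ => ∃ v ∈ Cyl x k, D u ⊆ Nbase sub v := by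
  have h1 : REPred fun u : ℕ => ∃ l : List ℕ, (∀ i < k, pt l i = x i) ∧
      ∀ q < u, (u.testBit q = false ∨
        ((∃ c, (pt l q.unpair.1 + 1) * c % (q.unpair.2.unpair.2 + 1) =
          1 % (q.unpair.2.unpair.2 + 1)) ∧
          (pt l q.unpair.1 + 1) % (q.unpair.2.unpair.2 + 1) =
            q.unpair.2.unpair.1 % (q.unpair.2.unpair.2 + 1))) := by
    have hpt : Computable fun p : List ℕ × ℕ => pt p.1 p.2 := by
      have : Primrec₂ fun (l : List ℕ) (i : ℕ) => l.getD i 0 := Primrec.list_getD 0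
      exact this.to_comp
    refine RE.ex (p := fun (u : ℕ) (l : List ℕ) => (∀ i < k, pt l i = x i) ∧
      ∀ q < u, (u.testBit q = false ∨
        ((∃ c, (pt l q.unpair.1 + 1) * c % (q.unpair.2.unpair.2 + 1) =
          1 % (q.unpair.2.unpair.2 + 1)) ∧
          (pt l q.unpair.1 + 1) % (q.unpair.2.unpair.2 + 1) =
            q.unpair.2.unpair.1 % (q.unpair.2.unpair.2 + 1)))) ?_
    refine RE.and ?_ ?_
    · -- finitely many conditions
      have h2 : ∀ k' : ℕ, REPred fun p : ℕ × List ℕ => ∀ i < k', pt p.2 i = x i := by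
        intro k'
        induction k' with
        | zero => exact (RE.const True).of_eq fun p => by simp
        | succ k' ih =>
          have h3 : REPred fun p : ℕ × List ℕ => pt p.2 k' = x k' :=
            RE.eq (hpt.comp (Computable.snd.pair (Computable.const _))) (Computable.const _)
          refine (RE.and ih h3).of_eq fun p => ?_
          constructor
          · rintro ⟨h4, h5⟩ i hi
            rcases Nat.lt_succ_iff_lt_or_eq.1 hi with h6 | rfl
            · exact h4 i h6
            · exact h5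
          · intro h4
            exact ⟨fun i hi => h4 i (Nat.lt_succ_of_lt hi), h4 k' (Nat.lt_succ_self _)⟩
      exact h2 k
    · refine RE.all_lt (p := fun (p : ℕ × List ℕ) (q : ℕ) => (p.1.testBit q = false ∨
        ((∃ c, (pt p.2 q.unpair.1 + 1) * c % (q.unpair.2.unpair.2 + 1) =
          1 % (q.unpair.2.unpair.2 + 1)) ∧
          (pt p.2 q.unpair.1 + 1) % (q.unpair.2.unpair.2 + 1) =
            q.unpair.2.unpair.1 % (q.unpair.2.unpair.2 + 1)))) ?_ Computable.fst
      have hq1 : Computable fun r : (ℕ × List ℕ) × ℕ => r.2.unpair.1 :=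
        comp_unpair1 Computable.snd
      have hq2 : Computable fun r : (ℕ × List ℕ) × ℕ => r.2.unpair.2.unpair.1 :=
        comp_unpair1 (comp_unpair2 Computable.snd)
      have hq3 : Computable fun r : (ℕ × List ℕ) × ℕ => r.2.unpair.2.unpair.2 + 1 :=
        Primrec.succ.to_comp.comp (comp_unpair2 (comp_unpair2 Computable.snd))
      have hval0 : Computable fun r : (ℕ × List ℕ) × ℕ => pt r.1.2 r.2.unpair.1 :=
        Computable.comp (f := fun p : List ℕ × ℕ => pt p.1 p.2)
          (g := fun r : (ℕ × List ℕ) × ℕ => (r.1.2, r.2.unpair.1)) hpt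
          ((Computable.snd.comp Computable.fst).pair hq1)
      have hval : Computable fun r : (ℕ × List ℕ) × ℕ => pt r.1.2 r.2.unpair.1 + 1 :=
        Computable.comp (f := Nat.succ)
          (g := fun r : (ℕ × List ℕ) × ℕ => pt r.1.2 r.2.unpair.1) Primrec.succ.to_comp hval0
      refine RE.or ?_ (RE.and ?_ ?_)
      · exact RE.eq (comp_testBit (Computable.fst.comp Computable.fst) Computable.snd)
          (Computable.const false)
      · refine RE.exN (p := fun (r : (ℕ × List ℕ) × ℕ) (c : ℕ) =>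
          (pt r.1.2 r.2.unpair.1 + 1) * c % (r.2.unpair.2.unpair.2 + 1) =
            1 % (r.2.unpair.2.unpair.2 + 1)) ?_
        refine RE.eq (comp_mod ?_ (hq3.comp Computable.fst))
          (comp_mod (Computable.const 1) (hq3.comp Computable.fst))
        exact Computable.comp (f := fun p : ℕ × ℕ => p.1 * p.2)
          (g := fun z : ((ℕ × List ℕ) × ℕ) × ℕ => (pt z.1.1.2 z.1.2.unpair.1 + 1, z.2))
          Primrec.nat_mul.to_comp
          (Computable.pair (Computable.comp (f := fun r : (ℕ × List ℕ) × ℕ =>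
            pt r.1.2 r.2.unpair.1 + 1) (g := fun z : ((ℕ × List ℕ) × ℕ) × ℕ => z.1) hval
            Computable.fst) Computable.snd)
      · exact RE.eq (comp_mod hval hq3) (comp_mod hq2 hq3)
  refine h1.of_eq fun u => ?_
  have hinv : ∀ a b : ℕ, (∃ c, a * c % (b + 1) = 1 % (b + 1)) ↔ Nat.Coprime a (b + 1) := by
    intro a b
    constructor
    · rintro ⟨c, hc⟩
      have h2 : a * c ≡ 1 [MOD (b + 1)] := hc
      have h3 : Nat.Coprime (a * c) (b + 1) := by
        rw [Nat.coprime_iff_gcd_eq_one, Nat.ModEq.gcd_eq h2]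
        simp
      exact Nat.Coprime.coprime_mul_right h3
    · intro h
      rcases Nat.eq_zero_or_pos b with rfl | hb
      · exact ⟨0, by simp⟩
      · obtain ⟨c, -, hc⟩ := Nat.exists_mul_mod_eq_one_of_coprime h (by omega)
        refine ⟨c, ?_⟩
        rw [hc, Nat.mod_eq_of_lt (by omega)]
  constructor
  · rintro ⟨l, h2, h3⟩
    refine ⟨pt l, h2, fun q hq => ?_⟩
    rcases h3 q (D_bound hq) with h4 | h4
    · have h5 : u.testBit q = true := hq
      rw [h4] at h5
      exact absurd h5 (by simp)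
    · exact ⟨(hinv _ _).1 h4.1, h4.2⟩
  · rintro ⟨v, h2, h3⟩
    have hlt : ∀ i, i < max k u → pt (List.ofFn fun j : Fin (max k u) => v j) i = v i := by
      intro i hi
      simp only [pt]
      rw [List.getD_eq_getElem _ _ (by simpa using hi)]
      simp
    refine ⟨List.ofFn fun j : Fin (max k u) => v j, fun i hi => ?_, fun q hq => ?_⟩
    · rw [hlt i (lt_max_of_lt_left hi), h2 i hi]
    · by_cases hb : u.testBit q = true
      · right
        have h4 : v ∈ sub q := h3 hb
        rw [hlt _ (lt_max_of_lt_right (lt_of_le_of_lt (Nat.unpair_left_le q) hq))]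
        exact ⟨(hinv _ _).2 h4.1, h4.2⟩
      · left
        simpa using hb

/-- the value of the partial map on a cylinder as in `const_on` is c.e. -/
theorem value_ce {Y : Type u} (γ : ℕ → Set Y) {Φ : Set (ℕ × ℕ)} (hΦ : REPred fun p => p ∈ Φ)
    (x : ℕ → ℕ) (k : ℕ) (hd : ∀ z ∈ Cyl x k, ∀ l, (Cyl z l ∩ Dom γ Φ).Nonempty) {y : Y}
    (hc : ∀ w ∈ Cyl x k, ∀ y' : Y, Nbase γ y' = app Φ (Nbase sub w) → y' = y)
    {w : ℕ → ℕ} (hw : w ∈ Cyl x k) (hy : Nbase γ y = app Φ (Nbase sub w)) : CE (Nbase γ y) := by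
  have h1 : REPred fun n : ℕ => ∃ u : ℕ, (n, u) ∈ Φ ∧ ∃ v ∈ Cyl x k, D u ⊆ Nbase sub v := by
    refine RE.exN (p := fun n u : ℕ => (n, u) ∈ Φ ∧ ∃ v ∈ Cyl x k, D u ⊆ Nbase sub v) ?_
    refine RE.and ?_ ?_
    · exact hΦ
    · exact RE.comp (re_ext x k) Computable.snd
  refine h1.of_eq fun n => ?_
  constructor
  · rintro ⟨u, h2, v, hv, h3⟩
    obtain ⟨m, b, hb, h4⟩ := exists_box (isOpen_D sub u) (x := v) h3
    obtain ⟨v', hv', y', hy'⟩ := hd v hv (max k m)
    have h5 : v' ∈ Cyl x k := fun i hi => by rw [hv' i (by omega), hv i hi]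
    have h6 : y' = y := hc v' h5 y' hy'
    rw [← h6, hy']
    refine ⟨u, h2, h4 ?_⟩
    intro i hi
    rw [hv' i (by omega)]
  · intro hn
    rw [hy] at hn
    obtain ⟨u, h2, h3⟩ := hn
    exact ⟨u, h2, w, hw, h3⟩

theorem sub_injective {x y : ℕ → ℕ} (h : Nbase sub x = Nbase sub y) : x = y := by
  let _ : TopologicalSpace (ℕ → ℕ) := top
  have := t2
  by_contra hne
  obtain ⟨U, V, hU, -, hx, hy, hdis⟩ := t2_separation hne
  obtain ⟨n, h1, h2⟩ := exists_D sub hU hx
  rw [h] at h1
  exact Set.disjoint_left.1 hdis (h2 y h1) hy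

/-- For every represented Urysohn space some point of the power of the Golomb space is
quasi-minimal. -/
theorem main {Y : Type u} (γ : ℕ → Set Y) (hY : @T25Space Y (generateFrom (Set.range γ))) :
    ∃ x : ℕ → ℕ, QuasiMinimal γ (Nbase sub x) := by
  classical
  -- one step
  have step : ∀ (e : ℕ) (p : (ℕ → ℕ) × ℕ), ∃ q : (ℕ → ℕ) × ℕ, p.2 < q.2 ∧ q.1 ∈ Cyl p.1 p.2 ∧
      (∀ w ∈ Cyl q.1 q.2, Nbase sub w ≠ app (Op e) ∅) ∧
      ∀ w ∈ Cyl q.1 q.2, ∀ y : Y, Nbase γ y = app (Op e) (Nbase sub w) → CE (Nbase γ y) := by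
    rintro e ⟨x, k⟩
    -- avoid the point with the given filter
    have h1 : ∃ z ∈ Cyl x k, ∀ w ∈ Cyl z (k + 1), Nbase sub w ≠ app (Op e) ∅ := by
      by_cases h : ∃ w₀, Nbase sub w₀ = app (Op e) ∅
      · obtain ⟨w₀, hw₀⟩ := h
        refine ⟨fun i => if i = k then w₀ k + 1 else x i, fun i hi => ?_, fun w hw h2 => ?_⟩
        · simp only
          rw [if_neg (by omega)]
        · have h3 : w = w₀ := sub_injective (h2.trans hw₀.symm)
          have h4 := hw k (Nat.lt_succ_self _)
          rw [h3] at h4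
          simp only [if_true] at h4
          omega
      · push Not at h
        exact ⟨x, fun _ _ => rfl, fun w _ => h w⟩
    obtain ⟨z, hz, hz2⟩ := h1
    by_cases hd : ∀ v ∈ Cyl z (k + 1), ∀ l, (Cyl v l ∩ Dom γ (Op e)).Nonempty
    · refine ⟨(z, k + 1), Nat.lt_succ_self _, hz, hz2, fun w hw y hy => ?_⟩
      refine value_ce γ (op_re e) z (k + 1) hd (y := y) (fun w' hw' y' hy' => ?_) hw hy
      exact const_on γ hY (Op e) z (k + 1) hd hw' hw hy' hy
    · push Not at hd
      obtain ⟨v, hv, l, hl⟩ := hd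
      refine ⟨(v, max (k + 1) l), lt_max_of_lt_left (Nat.lt_succ_self _), ?_, ?_, ?_⟩
      · intro i hi
        have hi' : i < k := hi
        show v i = x i
        rw [hv i (by omega), hz i hi]
      · intro w hw
        refine hz2 w fun i hi => ?_
        have h2 : w i = v i := hw i (lt_max_of_lt_left hi)
        rw [h2, hv i hi]
      · intro w hw y hy
        exfalso
        have h2 : w ∈ Cyl v l ∩ Dom γ (Op e) := ⟨fun i hi => hw i (lt_max_of_lt_right hi), y, hy⟩
        rw [hl] at h2
        exact h2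
  choose f hf1 hf2 hf3 hf4 using step
  let s : ℕ → (ℕ → ℕ) × ℕ := fun n => Nat.rec (fun _ => 0, 0) (fun e p => f e p) n
  have hs : ∀ e, s (e + 1) = f e (s e) := fun e => rfl
  have hlen : ∀ n, n ≤ (s n).2 := by
    intro n
    induction n with
    | zero => exact Nat.zero_le _
    | succ n ih =>
      have := hf1 n (s n)
      rw [← hs] at this
      omega
  have hmono : ∀ i j, i ≤ j → (s i).2 ≤ (s j).2 ∧ (s j).1 ∈ Cyl (s i).1 (s i).2 := by
    intro i j hij
    induction j, hij using Nat.le_induction with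
    | base => exact ⟨le_rfl, fun x _ => rfl⟩
    | succ j _ ih =>
      have h1 := hf1 j (s j)
      have h2 := hf2 j (s j)
      rw [← hs] at h1 h2
      exact ⟨ih.1.trans h1.le, fun x hx => (h2 x (lt_of_lt_of_le hx ih.1)).trans (ih.2 x hx)⟩
  let x : ℕ → ℕ := fun i => (s (i + 1)).1 i
  have hx : ∀ n, x ∈ Cyl (s n).1 (s n).2 := by
    intro n i hi
    show (s (i + 1)).1 i = (s n).1 i
    rcases le_total n (i + 1) with h | h
    · exact (hmono n (i + 1) h).2 i hi
    · exact ((hmono (i + 1) n h).2 i (hlen (i + 1))).symm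
  have hx' : ∀ e, x ∈ Cyl (f e (s e)).1 (f e (s e)).2 := fun e => by
    rw [← hs]
    exact hx (e + 1)
  refine ⟨x, fun hce => ?_, fun y hy => ?_⟩
  · have h1 : ERed (Nbase sub x) ∅ := by
      refine ⟨{p | p.1 ∈ Nbase sub x}, RE.comp hce Computable.fst, ?_⟩
      ext n
      constructor
      · intro hn
        exact ⟨0, hn, fun i hi => by simp [D] at hi⟩
      · rintro ⟨u, hu, -⟩
        exact hu
    obtain ⟨e, he⟩ := ered_iff.1 h1
    exact hf3 e (s e) x (hx' e) he
  · obtain ⟨e, he⟩ := ered_iff.1 hy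
    exact hf4 e (s e) x (hx' e) y he

/-- **Answer to Q1 (yes).** There is a represented Hausdorff space `X` such that for every
represented Urysohn space `Y` some point of `X` is `Y`-quasi-minimal. (A represented space is a set
with an enumerated subbasis; it carries the topology generated by it.) -/
theorem result : ∃ (X : Type) (β : ℕ → Set X), @T2Space X (generateFrom (Set.range β)) ∧
    ∀ (Y : Type u) (γ : ℕ → Set Y), @T25Space Y (generateFrom (Set.range γ)) →
      ∃ x : X, QuasiMinimal γ (Nbase β x) :=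
  ⟨ℕ → ℕ, sub, t2, fun _ γ hY => main γ hY⟩

end Pool.Agent.Results.MP_4f977f_lc.UrysohnQuasiMinimal
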